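import Pool.Agent.U167.SA.Stm7

/-!
Project SA (helper167), package SWEG: the swapping inequality with local events and far events.
-/

set_option autoImplicit false

namespace Pool.Agent.U758.SA

open Pool.Agent.U167.SA H974 Finset Filter Topology MeasureTheory

/-- integration of an inequality between products in two independent variables -/
theorem prod_int {Ω : Type*} [MeasurableSpace Ω] (μ ν : Measure Ω) {a d b c : Ω → ℝ} {t : ℝ}
    (ha : Integrable a μ) (hd : Integrable d μ) (hb : Integrable b ν) (hc : Integrable c ν)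
    (h : ∀ x y, a x * b y ≤ c y * d x + t * (a x * b y)) :
    (∫ x, a x ∂μ) * (∫ y, b y ∂ν) ≤
      (∫ y, c y ∂ν) * (∫ x, d x ∂μ) + t * ((∫ x, a x ∂μ) * ∫ y, b y ∂ν) := by
  have h1 : ∀ x, a x * (∫ y, b y ∂ν) ≤ (∫ y, c y ∂ν) * d x + t * (a x * ∫ y, b y ∂ν) := by
    intro x
    have h2 : ∫ y, a x * b y ∂ν ≤ ∫ y, (c y * d x + t * (a x * b y)) ∂ν :=
      integral_mono (hb.const_mul _) ((hc.mul_const _).add ((hb.const_mul _).const_mul _))
        (fun y => h x y)
    rw [integral_add (hc.mul_const _) ((hb.const_mul _).const_mul _), integral_mul_const,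
      integral_const_mul, integral_const_mul, integral_const_mul] at h2
    exact h2
  have h3 : ∫ x, a x * (∫ y, b y ∂ν) ∂μ ≤
      ∫ x, ((∫ y, c y ∂ν) * d x + t * (a x * ∫ y, b y ∂ν)) ∂μ :=
    integral_mono (ha.mul_const _) ((hd.const_mul _).add ((ha.mul_const _).const_mul _))
      (fun x => h1 x)
  rw [integral_add (hd.const_mul _) ((ha.mul_const _).const_mul _), integral_mul_const,
    integral_const_mul, integral_const_mul, integral_mul_const] at h3
  exact h3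

/-- **SWEG** -/
theorem t_SWEG : SWEGStm := by
  classical
  intro hF D hD
  obtain ⟨m0, θ, hθ0, hθ1, hS⟩ := hD
  refine ⟨m0, θ, hθ0, hθ1, ?_⟩
  intro K m R W1 W2 G11 G12 G21 G22 A1 A2 T1 T2 L1 L2 V1 V2 hm hm0 hA1 hA2 hR h1 h2 h3 hT1 hT2
    hL1 hL2 hV1 hV2 hO1 hO2
  have hmR : m ≤ R := by
    refine le_trans ?_ hR
    have : 1 ≤ 64 ^ K := Nat.one_le_pow _ _ (by norm_num)
    nlinarith
  -- the pointwise inequality
  have key : ∀ (η1 η2 : Finset Edg) (ω ω' : Edg → Bool),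
      PX (GF m R η1 ω G11) (PF m R η1 ω) A1 T1 L1 * PX (GF m R η2 ω' G22) (PF m R η2 ω') A2 T2 L2 ≤
        PX (GF m R η1 ω' G12) (PF m R η1 ω') A1 T2 L2 *
          PX (GF m R η2 ω G21) (PF m R η2 ω) A2 T1 L1 +
        θ ^ K * (PX (GF m R η1 ω G11) (PF m R η1 ω) A1 T1 L1 *
          PX (GF m R η2 ω' G22) (PF m R η2 ω') A2 T2 L2) := by
    intro η1 η2 ω ω'
    refine hS K m R (GF m R η1 ω G11) (GF m R η1 ω' G12) (GF m R η2 ω G21) (GF m R η2 ω' G22)
      (PF m R η1 ω) (PF m R η1 ω') (PF m R η2 ω) (PF m R η2 ω') A1 A2 T1 T2 L1 L2 hm hm0 hA1 hA2 hR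
      ?_ ?_ ?_ hT1 hT2 hL1 hL2
    · intro e he
      obtain ⟨a1, a2⟩ := h1 e he
      simp only [GF, PF, Set.mem_ofPred_eq, he, not_true_eq_false, false_and, or_false,
        false_implies, and_true, a1, a2]
    · intro e he
      obtain ⟨a1, a2⟩ := h2 e he
      simp only [GF, PF, Set.mem_ofPred_eq, he, false_and, false_or, false_implies, true_and, a1, a2]
    · intro e he he'
      have a := h3 e he he'
      simp only [GF, Set.mem_ofPred_eq, he, he', not_true_eq_false, false_implies, and_true, a]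
  -- the integrated inequality
  have intk : ∀ η1 η2 : Finset Edg,
      (∫ ω in V1, PX (GF m R η1 ω G11) (PF m R η1 ω) A1 T1 L1 ∂percE) *
        (∫ ω in V2, PX (GF m R η2 ω G22) (PF m R η2 ω) A2 T2 L2 ∂percE) ≤
      (∫ ω in V2, PX (GF m R η1 ω G12) (PF m R η1 ω) A1 T2 L2 ∂percE) *
        (∫ ω in V1, PX (GF m R η2 ω G21) (PF m R η2 ω) A2 T1 L1 ∂percE) +
      θ ^ K * ((∫ ω in V1, PX (GF m R η1 ω G11) (PF m R η1 ω) A1 T1 L1 ∂percE) *
        (∫ ω in V2, PX (GF m R η2 ω G22) (PF m R η2 ω) A2 T2 L2 ∂percE)) := by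
    intro η1 η2
    exact prod_int (percE.restrict V1) (percE.restrict V2)
      ((hF m R hmR G11 A1 T1 L1).1 η1).integrableOn ((hF m R hmR G21 A2 T1 L1).1 η2).integrableOn
      ((hF m R hmR G22 A2 T2 L2).1 η2).integrableOn ((hF m R hmR G12 A1 T2 L2).1 η1).integrableOn
      (fun x y => key η1 η2 x y)
  rw [(hF m R hmR G11 A1 T1 L1).2 W1 V1 hV1 hO1, (hF m R hmR G22 A2 T2 L2).2 W2 V2 hV2 hO2,
    (hF m R hmR G12 A1 T2 L2).2 W1 V2 hV2 hO2, (hF m R hmR G21 A2 T1 L1).2 W2 V1 hV1 hO1]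
  rw [Finset.sum_mul_sum, Finset.sum_mul_sum, Finset.mul_sum, ← Finset.sum_add_distrib]
  refine Finset.sum_le_sum fun η1 _ => ?_
  rw [Finset.mul_sum, ← Finset.sum_add_distrib]
  refine Finset.sum_le_sum fun η2 _ => ?_
  have h0 : (0 : ℝ) ≤ (1/2 : ℝ)^(boxE m).card * (1/2 : ℝ)^(boxE m).card := by positivity
  have := mul_le_mul_of_nonneg_left (intk η1 η2) h0
  refine le_trans (le_of_eq ?_) (this.trans (le_of_eq ?_)) <;> ring

end Pool.Agent.U758.SA
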